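import Pool.Agent.V11112.MJ4

set_option linter.all false

namespace Pool.Agent.Results.MP_5fe7ea_an.SeparableKyFan

open scoped Kronecker ComplexOrder
open Finset Matrix

/-- `λ(X)`: the eigenvalues of the Hermitian matrix `X` (over an index type with `N` elements),
listed with multiplicity in non-increasing order; this is Mathlib's `eigenvalues₀`. -/
noncomputable def lam {ι : Type} [Fintype ι] [DecidableEq ι] {N : ℕ} (hN : Fintype.card ι = N)
    (X : Matrix ι ι ℂ) (hX : X.IsHermitian) : Fin N → ℝ :=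
  fun i => hX.eigenvalues₀ (Fin.cast hN.symm i)

/-- `X↓`: the diagonal matrix with the entries of `λ(X)` on the diagonal. -/
noncomputable def down {m : ℕ} (X : Matrix (Fin m) (Fin m) ℂ) (hX : X.IsHermitian) :
    Matrix (Fin m) (Fin m) ℂ :=
  Matrix.diagonal (fun i => ((lam (Fintype.card_fin m) X hX i : ℝ) : ℂ))

/-- `x↓`: the vector `x` sorted non-increasingly. -/
noncomputable def sortDown {k : ℕ} (x : Fin k → ℝ) : Fin k → ℝ :=
  x ∘ Tuple.sort (fun i => - x i)

/-- `x ⪯ y`: the vector `x` is majorized by the vector `y`. -/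
def Majorized {k : ℕ} (x y : Fin k → ℝ) : Prop :=
  (∀ t : ℕ, t ≤ k → ∑ j ∈ univ.filter (fun j : Fin k => j.val < t), sortDown x j
      ≤ ∑ j ∈ univ.filter (fun j : Fin k => j.val < t), sortDown y j) ∧
    ∑ j, x j = ∑ j, y j

theorem sortDown_of_antitone {k : ℕ} (x : Fin k → ℝ) (hx : Antitone x) : sortDown x = x := by
  unfold sortDown
  have h : Tuple.sort (fun i => - x i) = Equiv.refl _ :=
    Tuple.sort_eq_refl_iff_monotone.mpr (fun i j hij => neg_le_neg (hx hij))
  rw [h]
  rfl

theorem card_prod_fin (m n : ℕ) : Fintype.card (Fin m × Fin n) = m * n := by simp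

/-- For every number `s` of terms (`s = 2` is the question): if `A q` are positive semidefinite
`m × m` matrices and `B q` positive semidefinite `n × n` matrices, then the eigenvalue vector of
`∑ q, A q ⊗ B q` is majorized by the eigenvalue vector of `∑ q, (A q)↓ ⊗ (B q)↓`. -/
theorem result (s m n : ℕ) (A : Fin s → Matrix (Fin m) (Fin m) ℂ)
    (B : Fin s → Matrix (Fin n) (Fin n) ℂ)
    (hA : ∀ q, (A q).PosSemidef) (hB : ∀ q, (B q).PosSemidef) :
    ∃ (hM : (∑ q, A q ⊗ₖ B q).IsHermitian)
      (hM' : (∑ q, down (A q) (hA q).isHermitian ⊗ₖ down (B q) (hB q).isHermitian).IsHermitian),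
      Majorized (lam (card_prod_fin m n) (∑ q, A q ⊗ₖ B q) hM)
        (lam (card_prod_fin m n)
          (∑ q, down (A q) (hA q).isHermitian ⊗ₖ down (B q) (hB q).isHermitian) hM') := by
  have hM : (∑ q, A q ⊗ₖ B q).IsHermitian :=
    Pool.Agent.V11112.MJ1.sum_herm _ (fun q =>
      Pool.Agent.V11112.MJ1.kron_herm _ _ (hA q).isHermitian (hB q).isHermitian)
  have hM' : (∑ q, down (A q) (hA q).isHermitian ⊗ₖ
      down (B q) (hB q).isHermitian).IsHermitian :=
    Pool.Agent.V11112.MJ1.sum_herm _ (fun q =>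
      Pool.Agent.V11112.MJ1.kron_herm _ _
        (Pool.Agent.V11112.MJ1.down_herm (Fintype.card_fin m) (A q) (hA q).isHermitian)
        (Pool.Agent.V11112.MJ1.down_herm (Fintype.card_fin n) (B q) (hB q).isHermitian))
  refine ⟨hM, hM', ?_, ?_⟩
  · intro t ht
    have hL : ∀ (X : Matrix (Fin m × Fin n) (Fin m × Fin n) ℂ) (hX : X.IsHermitian),
        Antitone (lam (card_prod_fin m n) X hX) := fun X hX =>
      Pool.Agent.V11112.MJ1.eig_antitone (card_prod_fin m n) X hX
    rw [sortDown_of_antitone _ (hL _ hM), sortDown_of_antitone _ (hL _ hM')]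
    exact Pool.Agent.V11112.MJ1.partial_sums (Fintype.card_fin m) (Fintype.card_fin n)
      (card_prod_fin m n) (card_prod_fin m n) A B hA hB hM hM' t ht
  · exact Pool.Agent.V11112.MJ1.total_sums (Fintype.card_fin m) (Fintype.card_fin n)
      (card_prod_fin m n) (card_prod_fin m n) A B hA hB hM hM'

end Pool.Agent.Results.MP_5fe7ea_an.SeparableKyFan
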